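import Pool.Agent.Lib.MP_6995cd_al.Global

universe u v

/-- For every commutative ring `R` and every finite group `G`, the representation ring `a(RG)`
has no idempotents other than `0` and `1`. -/
theorem Pool.Agent.Results.MP_6995cd_al.NoIdempotents.result
    (R : Type u) [CommRing R] (G : Type v) [Group G] [Finite G]
    (e : Pool.Agent.Lib.MP_6995cd_al.RepRing R G) (he : e * e = e) : e = 0 ∨ e = 1 :=
  Pool.Agent.Lib.MP_6995cd_al.idem_eq_zero_or_one e he
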